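import Mathlib

/-! Sets of integers without differences in `[L, D]`; admissible forms `a n + 1`. The lemmas `comb` and
`adm_forms` are those of `Pool.Agent.H47R4` (starting library), repeated here to keep the imports small. -/

set_option autoImplicit false

namespace Pool.Agent.V5helper61.UF

open Finset Nat

/-- sets without differences in `[L, D]` are small -/
theorem comb (L D : ℕ) (hD : 2 * L ≤ D + 2) (S : Finset ℕ) (hS : ∀ x ∈ S, x < L + D)
    (hcard : L + 1 ≤ S.card) : ∃ x ∈ S, ∃ y ∈ S, x + L ≤ y ∧ y ≤ x + D := by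
  by_contra hcon
  push Not at hcon
  have hne : S.Nonempty := Finset.card_pos.1 (by omega)
  set x0 := S.min' hne with hx0
  have hx0S : x0 ∈ S := S.min'_mem hne
  by_cases hL : L = 0
  · have := hcon x0 hx0S x0 hx0S (by omega)
    omega
  have hAne : (S.filter (fun y => y < x0 + L)).Nonempty :=
    ⟨x0, Finset.mem_filter.2 ⟨hx0S, by omega⟩⟩
  set α := (S.filter (fun y => y < x0 + L)).max' hAne with hα
  have hαm := Finset.max'_mem _ hAne
  rw [← hα, Finset.mem_filter] at hαm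
  have hsub : S ⊆ Finset.Icc x0 α ∪ Finset.Icc (α + D + 1) (L + D - 1) := by
    intro y hy
    have h1 := hS y hy
    have h2 : x0 ≤ y := S.min'_le y hy
    rw [Finset.mem_union, Finset.mem_Icc, Finset.mem_Icc]
    by_cases h3 : y < x0 + L
    · left
      exact ⟨h2, Finset.le_max' _ y (Finset.mem_filter.2 ⟨hy, h3⟩)⟩
    · right
      have h4 := hcon x0 hx0S y hy (by omega)
      have h5 := hcon α hαm.1 y hy (by omega)
      omega
  have h6 := (Finset.card_le_card hsub).trans (Finset.card_union_le _ _)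
  rw [Nat.card_Icc, Nat.card_Icc] at h6
  have h7 : x0 ≤ α := S.min'_le α hαm.1
  omega

/-- the density of a set without differences in `[L, D]` is at most `L / (L + D)` -/
theorem comb_many (L D : ℕ) (hL : 1 ≤ L) (hD : 2 * L ≤ D + 2) (w : ℕ) : ∀ S : Finset ℕ,
    (∀ x ∈ S, x < w * (L + D)) → w * L + 1 ≤ S.card → ∃ x ∈ S, ∃ y ∈ S, x + L ≤ y ∧ y ≤ x + D := by
  induction w with
  | zero =>
    intro S hS hcard
    obtain ⟨x, hx⟩ := Finset.card_pos.1 (by omega : 0 < S.card)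
    have := hS x hx
    omega
  | succ w ih =>
    intro S hS hcard
    by_cases h1 : w * L + 1 ≤ (S.filter (fun x => x < w * (L + D))).card
    · obtain ⟨x, hx, y, hy, h⟩ := ih (S.filter (fun x => x < w * (L + D)))
        (fun x hx => (Finset.mem_filter.1 hx).2) h1
      exact ⟨x, (Finset.mem_filter.1 hx).1, y, (Finset.mem_filter.1 hy).1, h⟩
    · -- the last window
      set U := (S.filter (fun x => ¬ x < w * (L + D))).image (fun x => x - w * (L + D)) with hU
      have hinj : Set.InjOn (fun x => x - w * (L + D))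
          (S.filter (fun x => ¬ x < w * (L + D)) : Finset ℕ) := by
        intro x hx y hy hxy
        have h2 := (Finset.mem_filter.1 (Finset.mem_coe.1 hx)).2
        have h3 := (Finset.mem_filter.1 (Finset.mem_coe.1 hy)).2
        simp only at hxy
        omega
      have hc : U.card = (S.filter (fun x => ¬ x < w * (L + D))).card :=
        Finset.card_image_of_injOn hinj
      have hsum := Finset.card_filter_add_card_filter_not (s := S) (fun x => x < w * (L + D))
      have h4 : L + 1 ≤ U.card := by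
        rw [hc]
        have : (w + 1) * L = w * L + L := by ring
        omega
      obtain ⟨x, hx, y, hy, h5, h6⟩ := comb L D hD U (by
        intro x hx
        rw [hU, Finset.mem_image] at hx
        obtain ⟨z, hz, rfl⟩ := hx
        have h7 := hS z (Finset.mem_filter.1 hz).1
        have h8 := (Finset.mem_filter.1 hz).2
        have : (w + 1) * (L + D) = w * (L + D) + (L + D) := by ring
        omega) h4
      rw [hU, Finset.mem_image] at hx hy
      obtain ⟨x', hx', rfl⟩ := hx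
      obtain ⟨y', hy', rfl⟩ := hy
      have h9 := (Finset.mem_filter.1 hx').2
      have h10 := (Finset.mem_filter.1 hy').2
      exact ⟨x', (Finset.mem_filter.1 hx').1, y', (Finset.mem_filter.1 hy').1, by omega, by omega⟩

/-- a prime `p > k` cannot be covered by the `k` forms `a i * n + 1` when `(k + 1)!` divides all `a i` -/
theorem adm_small {k p : ℕ} (hp : p.Prime) (hpk : p ≤ k) {ι : Type*} (a : ι → ℕ)
    (ha : ∀ i, k ! ∣ a i) (r : ℤ) (i : ι) : ¬ ((p : ℤ) ∣ (a i : ℤ) * r + 1) := by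
  intro h
  have h1 : p ∣ a i := (Nat.dvd_factorial hp.pos hpk).trans (ha i)
  have h2 : (p : ℤ) ∣ (a i : ℤ) * r := Dvd.dvd.mul_right (Int.natCast_dvd_natCast.2 h1) r
  have h3 := (Int.dvd_add_right h2).1 h
  have h4 : (p : ℤ) ∣ ((1 : ℕ) : ℤ) := by exact_mod_cast h3
  exact hp.one_lt.ne' (Nat.dvd_one.1 (Int.natCast_dvd_natCast.1 h4))

/-- the choice of the window: real version. If `Λ` is between `Λ₀` and `17 Λ₀`, a set of density
`5 / 18` in `[0, T)` has a difference between `(1 + z) / (1 - z) / η * Λ` and `Λ / (1 + z)`. -/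
theorem density_num (η z Λ : ℝ) (hη : 13 / 5 < η) (hz : 0 < z)
    (hzη : (1 + z) ^ 3 * (13 / 5 + z) < η * (1 - z)) (hz1 : z < 1 / 10) (hΛ : 10 / z ≤ Λ) :
    ∃ L D : ℕ, 1 ≤ L ∧ 2 * L ≤ D + 2 ∧ (Λ * (1 + z)) / (η * (1 - z)) ≤ L ∧ (D : ℝ) ≤ Λ / (1 + z) ∧
      (18 / 5 + z / 2) * (L : ℝ) ≤ L + D ∧ ((L : ℝ) + D) ≤ 2 * Λ := by
  have hz2 : 0 < 1 - z := by linarith
  have hΛ0 : 0 < Λ := lt_of_lt_of_le (by positivity) hΛ
  have hη0 : 0 < η := by linarith
  have hzΛ : 10 ≤ z * Λ := by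
    rw [div_le_iff₀ hz] at hΛ
    linarith
  set x : ℝ := (Λ * (1 + z)) / (η * (1 - z)) with hx
  have hx0 : 0 < x := by positivity
  refine ⟨⌈x⌉₊, ⌊Λ / (1 + z)⌋₊, Nat.one_le_ceil_iff.2 hx0, ?_, Nat.le_ceil x,
    Nat.floor_le (by positivity), ?_, ?_⟩
  all_goals
    have hL1 : (⌈x⌉₊ : ℝ) < x + 1 := Nat.ceil_lt_add_one hx0.le
    have hD1 : Λ / (1 + z) < ⌊Λ / (1 + z)⌋₊ + 1 := Nat.lt_floor_add_one _
    have hD2 : (⌊Λ / (1 + z)⌋₊ : ℝ) ≤ Λ / (1 + z) := Nat.floor_le (by positivity)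
    -- `(13 / 5 + z) (1 + z) x ≤ Λ / (1 + z)`
    have hkey : (13 / 5 + z) * (1 + z) * x ≤ Λ / (1 + z) := by
      rw [hx, le_div_iff₀ (by positivity)]
      have e : (13 / 5 + z) * (1 + z) * (Λ * (1 + z) / (η * (1 - z))) * (1 + z) =
          Λ * ((1 + z) ^ 3 * (13 / 5 + z)) / (η * (1 - z)) := by ring
      rw [e, div_le_iff₀ (by positivity)]
      exact mul_le_mul_of_nonneg_left hzη.le hΛ0.le
    have hΛz : Λ / (1 + z) ≤ Λ := div_le_self hΛ0.le (by linarith)
    have hΛz2 : Λ * (10 / 11) ≤ Λ / (1 + z) := by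
      rw [le_div_iff₀ (by positivity)]
      nlinarith
    have hxs : x ≤ Λ / (13 / 5) := by
      rw [le_div_iff₀ (by norm_num)]
      have : (13 / 5) * x ≤ (13 / 5 + z) * (1 + z) * x := by
        apply mul_le_mul_of_nonneg_right _ hx0.le
        nlinarith
      linarith
    have hΛ100 : 100 < Λ := by nlinarith
  · have h1 : (2 : ℝ) * ⌈x⌉₊ ≤ ⌊Λ / (1 + z)⌋₊ + 2 := by
      have : x ≤ Λ * (5 / 13) := by linarith
      nlinarith
    exact_mod_cast h1
  · -- the main inequality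
    have h2 : (13 / 5 + z / 2) * (x + 1) ≤ Λ / (1 + z) - 1 := by
      -- enough room: `z / 2 * x + (13/5) z x ≥ 5`
      rcases le_or_gt (x * z) 3 with h3 | h3
      · have h4 : (13 / 5 + z / 2) * (x + 1) ≤ (13 / 5 + z) * (1 + z) * x - (13 / 5) * z * x -
            z / 2 * x - z ^ 2 * x + 13 / 5 + z / 2 := by nlinarith
        -- here `x ≤ 3 / z`, but `x` is comparable to `Λ ≥ 10 / z` unless `η` is large
        have h5 : (13 / 5 + z / 2) * (x + 1) ≤ (27 / 10) * (x + 1) := by nlinarith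
        have h6 : (27 / 10) * (x + 1) ≤ Λ * (10 / 11) - 1 := by
          have h7 : x ≤ 3 / z := by rw [le_div_iff₀ hz]; exact h3
          have h8 : 3 / z = (3 / 10) * (10 / z) := by ring
          nlinarith
        linarith
      · have h4 : (13 / 5 + z) * (1 + z) * x = (13 / 5 + z / 2) * (x + 1) + (z / 2 * x +
            (13 / 5) * (x * z) + z ^ 2 * x - 13 / 5 - z / 2) := by ring
        have h5 : 0 ≤ z ^ 2 * x := by positivity
        nlinarith
    have h3 : (13 / 5 + z / 2) * (⌈x⌉₊ : ℝ) ≤ (13 / 5 + z / 2) * (x + 1) :=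
      mul_le_mul_of_nonneg_left hL1.le (by positivity)
    have h4 : (18 / 5 + z / 2) * (⌈x⌉₊ : ℝ) = (⌈x⌉₊ : ℝ) + (13 / 5 + z / 2) * ⌈x⌉₊ := by ring
    rw [h4]
    linarith
  · have : x ≤ Λ * (5 / 13) := by linarith
    nlinarith

/-- A set `S` of more than `(5 / 18 - tiny) T` integers in `[0, T)` has a difference in the window -/
theorem density (η z : ℝ) (hη : 13 / 5 < η) (hz : 0 < z)
    (hzη : (1 + z) ^ 3 * (13 / 5 + z) < η * (1 - z)) (hz1 : z < 1 / 10) (Λ₀ : ℝ)
    (hΛ₀ : 10 / z ≤ Λ₀) : ∃ T₀ : ℕ, ∀ T : ℕ, T₀ ≤ T → ∀ M : ℕ, (T : ℝ) ≤ (18 / 5) * ((M : ℝ) + 1) →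
      ∀ Λ : ℝ, Λ₀ ≤ Λ → Λ ≤ 17 * Λ₀ → ∀ S : Finset ℕ, (∀ x ∈ S, x < T) → M + 1 ≤ S.card →
        ∃ x ∈ S, ∃ y ∈ S, x < y ∧ Λ * (1 + z) ≤ η * (1 - z) * ((y : ℝ) - x) ∧
          ((y : ℝ) - x) * (1 + z) ≤ Λ := by
  have hz2 : 0 < 1 - z := by linarith
  have hΛ00 : 0 < Λ₀ := lt_of_lt_of_le (by positivity) hΛ₀
  have hη0 : 0 < η := by linarith
  refine ⟨⌈(1000 * Λ₀) / z + 1000 * Λ₀⌉₊, ?_⟩
  intro T hT M hM Λ h1 h2 S hS hcard
  have hTr : (1000 * Λ₀) / z + 1000 * Λ₀ ≤ T := (Nat.le_ceil _).trans (by exact_mod_cast hT)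
  obtain ⟨L, D, hL, hLD, hL1, hD1, hLD1, hLD2⟩ := density_num η z Λ hη hz hzη hz1 (hΛ₀.trans h1)
  -- number of windows
  have hLDpos : 0 < L + D := by omega
  set w : ℕ := T / (L + D) + 1 with hw
  have hTw : T < w * (L + D) := by
    rw [hw, add_mul, one_mul]
    have := Nat.lt_div_mul_add (a := T) hLDpos
    omega
  have hwc : w * L + 1 ≤ S.card := by
    refine le_trans ?_ hcard
    apply Nat.add_le_add_right
    have h3 : (w : ℝ) * (L + D) ≤ T + (L + D) := by
      have : w * (L + D) ≤ T + (L + D) := by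
        rw [hw, add_mul, one_mul]
        exact Nat.add_le_add_right (Nat.div_mul_le_self T _) _
      exact_mod_cast this
    have hLr : (1 : ℝ) ≤ L := by exact_mod_cast hL
    have hw0 : (0 : ℝ) ≤ w := by positivity
    -- `w L (18/5 + z/2) ≤ w (L + D) ≤ T + 2 Λ`
    have h4 : (w : ℝ) * L * (18 / 5 + z / 2) ≤ T + 34 * Λ₀ := by
      have e1 : (w : ℝ) * ((18 / 5 + z / 2) * L) ≤ w * (L + D) :=
        mul_le_mul_of_nonneg_left hLD1 hw0
      nlinarith
    have h5 : (w : ℝ) * L ≤ M := by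
      have hT0 : 0 ≤ (T : ℝ) := by positivity
      -- `(T + 34 Λ₀) / (18/5 + z/2) ≤ 5/18 T - 1`
      have h6 : (T : ℝ) + 34 * Λ₀ ≤ (5 / 18 * T - 1) * (18 / 5 + z / 2) := by
        have e2 : (5 / 18 * (T : ℝ) - 1) * (18 / 5 + z / 2) =
          T + (5 / 36) * (z * T) - 18 / 5 - z / 2 := by ring
        rw [e2]
        have e3 : 1000 * Λ₀ ≤ z * T := by
          have : z * ((1000 * Λ₀) / z) ≤ z * T :=
            mul_le_mul_of_nonneg_left (by linarith) hz.le
          rwa [mul_div_cancel₀ _ hz.ne'] at this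
        have e4 : 100 ≤ Λ₀ := by
          rw [div_le_iff₀ hz] at hΛ₀
          nlinarith
        linarith
      have h7 : (w : ℝ) * L * (18 / 5 + z / 2) ≤ (5 / 18 * T - 1) * (18 / 5 + z / 2) := h4.trans h6
      have h8 := le_of_mul_le_mul_right h7 (by positivity)
      linarith
    exact_mod_cast h5
  obtain ⟨x, hx, y, hy, h5, h6⟩ := comb_many L D hL hLD w S (fun x hx => (hS x hx).trans hTw) hwc
  refine ⟨x, hx, y, hy, by omega, ?_, ?_⟩
  · have h7 : (L : ℝ) ≤ (y : ℝ) - x := by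
      have : (x : ℝ) + L ≤ y := by exact_mod_cast h5
      linarith
    rw [div_le_iff₀ (by positivity)] at hL1
    calc Λ * (1 + z) ≤ L * (η * (1 - z)) := hL1
      _ ≤ ((y : ℝ) - x) * (η * (1 - z)) := mul_le_mul_of_nonneg_right h7 (by positivity)
      _ = _ := by ring
  · have h7 : (y : ℝ) - x ≤ D := by
      have : (y : ℝ) ≤ x + D := by exact_mod_cast h6
      linarith
    have h8 := h7.trans hD1
    rwa [le_div_iff₀ (by positivity)] at h8

end Pool.Agent.V5helper61.UF
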