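import Mathlib
import Pool.Agent.H47R4.Shape

/-! Linear forms `a n + 1`, any two of which give consecutive integers, with controlled location. -/

set_option autoImplicit false

namespace Pool.Agent.V5helper61.UF

open Finset Nat

/-- Forms `a g i * n + 1`, `g < T`, `i < K`, such that for `g < g'` the forms `a g i * n + 1` and
`a g' i' * n + 1` have multiples `c (a g i n + 1)`, `(c + 1) (a g' i' n + 1)` which are consecutive integers,
of size about `Q n / (g' - g)`. -/
theorem setup (T K h : ℕ) (hh : 2 ≤ h) :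
    ∃ (a : Fin T → Fin K → ℕ) (Q : ℝ) (m b : ℕ), 0 < Q ∧ (∀ g i, 1 ≤ a g i) ∧
      Function.Injective (fun x : Fin T × Fin K => a x.1 x.2) ∧ (∀ g i, (T * K)! ∣ a g i) ∧
      ∀ (g g' : Fin T) (i i' : Fin K), g.val < g'.val → ∃ c : ℕ, 1 ≤ c ∧ c + 1 ≤ m ∧
        c * a g i = (c + 1) * a g' i' ∧ ∀ t : ℕ,
          (1 - 1 / (h : ℝ)) * ((g'.val : ℝ) - g.val) * ((c * (a g i * t + 1) : ℕ) : ℝ) ≤ Q * t + b ∧
          Q * t ≤ (1 + 1 / (h : ℝ)) * ((g'.val : ℝ) - g.val) * ((c * (a g i * t + 1) : ℕ) : ℝ) := by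
  classical
  have hhr : (2 : ℝ) ≤ h := by exact_mod_cast hh
  have hh0 : (0 : ℝ) < h := by linarith
  set R : ℕ := h * (K + 1) with hR
  have hR0 : 2 * (K + 1) ≤ R := Nat.mul_le_mul_right _ hh
  have hR1 : 1 ≤ R := by omega
  set r : Fin T × Fin K → ℕ := fun x => R * x.1.val + x.2.val with hr
  have hrinj : Function.Injective r := by
    rintro ⟨g, i⟩ ⟨g', i'⟩ hij
    simp only [hr] at hij
    have hi := i.2
    have hj := i'.2
    have key : ∀ g g' u w : ℕ, g < g' → u < K → w < K → R * g + u ≠ R * g' + w := by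
      intro g g' u w hgg hu hw heq
      have h7 : R * (g + 1) ≤ R * g' := Nat.mul_le_mul_left R hgg
      rw [Nat.mul_add] at h7
      omega
    rcases lt_trichotomy g.val g'.val with h | h | h
    · exact absurd hij (key _ _ _ _ h hi hj)
    · have h1 : g = g' := Fin.ext h
      subst h1
      have h2 : i = i' := Fin.ext (by omega)
      rw [h2]
    · exact absurd hij.symm (key _ _ _ _ h hj hi)
  obtain ⟨C, M, δ, hC, hM, hδ, hdiv⟩ := Pool.Agent.H47R4.shape 2 le_rfl (univ.image r)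
  have hmem : ∀ i, r i ∈ univ.image r := fun i => Finset.mem_image_of_mem r (Finset.mem_univ i)
  set Bz : Fin T × Fin K → ℤ := fun i => C * r i + M + δ (r i) with hBz
  have hBz1 : ∀ i, 1 ≤ Bz i := by
    intro i
    have h3 := (hδ _ (hmem i)).1
    have h4 : 0 ≤ C * (r i : ℤ) := by positivity
    simp only [hBz]
    linarith
  set B : Fin T × Fin K → ℕ := fun i => (Bz i).toNat with hB
  have hBc : ∀ i, (B i : ℤ) = Bz i := fun i => Int.toNat_of_nonneg (by linarith [hBz1 i])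
  have hB1 : ∀ i, 1 ≤ B i := by
    intro i
    have h3 := hBz1 i
    rw [← hBc] at h3
    exact_mod_cast h3
  -- gaps
  have hgap : ∀ x y : Fin T × Fin K, x.1.val < y.1.val →
      ((h : ℤ) - 1) * (C * R * ((y.1.val : ℤ) - x.1.val)) ≤ h * (Bz y - Bz x) ∧
      h * (Bz y - Bz x) ≤ ((h : ℤ) + 1) * (C * R * ((y.1.val : ℤ) - x.1.val)) := by
    intro x y hij
    have hi : (x.2.val : ℤ) + 1 ≤ K := by exact_mod_cast x.2.2
    have hj : (y.2.val : ℤ) + 1 ≤ K := by exact_mod_cast y.2.2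
    have hi0 : (0 : ℤ) ≤ x.2.val := by positivity
    have hj0 : (0 : ℤ) ≤ y.2.val := by positivity
    obtain ⟨h6, h7⟩ := hδ _ (hmem x)
    obtain ⟨h8, h9⟩ := hδ _ (hmem y)
    have hRz : (R : ℤ) = h * (K + 1) := by rw [hR]; push_cast; ring
    have hΔ : (1 : ℤ) ≤ (y.1.val : ℤ) - x.1.val := by
      have : (x.1.val : ℤ) < y.1.val := by exact_mod_cast hij
      linarith
    have hrd : (r y : ℤ) - r x = R * ((y.1.val : ℤ) - x.1.val) + (y.2.val - x.2.val) := by
      simp only [hr]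
      push_cast
      ring
    set Δ : ℤ := (y.1.val : ℤ) - x.1.val with hΔd
    have hdB : Bz y - Bz x = C * R * Δ + C * ((y.2.val : ℤ) - x.2.val) + (δ (r y) - δ (r x)) := by
      have : Bz y - Bz x = C * ((r y : ℤ) - r x) + (δ (r y) - δ (r x)) := by
        simp only [hBz]
        ring
      rw [this, hrd]
      ring
    have hh0z : (0 : ℤ) ≤ h := by positivity
    have e1 : C * ((y.2.val : ℤ) - x.2.val) + (δ (r y) - δ (r x)) ≤ C * (K + 1) := by
      have : C * ((y.2.val : ℤ) - x.2.val) ≤ C * K := by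
        apply mul_le_mul_of_nonneg_left _ (by linarith)
        linarith
      linarith
    have e2 : -(C * (K + 1)) ≤ C * ((y.2.val : ℤ) - x.2.val) + (δ (r y) - δ (r x)) := by
      have : C * (-K) ≤ C * ((y.2.val : ℤ) - x.2.val) := by
        apply mul_le_mul_of_nonneg_left _ (by linarith)
        linarith
      linarith
    have e3 : (h : ℤ) * (C * (K + 1)) ≤ C * R * Δ := by
      have e4 : (h : ℤ) * (C * (K + 1)) = C * R * 1 := by rw [hRz]; ring
      rw [e4]
      apply mul_le_mul_of_nonneg_left hΔ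
      positivity
    have e5 := mul_le_mul_of_nonneg_left e1 hh0z
    have e6 := mul_le_mul_of_nonneg_left e2 hh0z
    rw [hdB]
    constructor <;> nlinarith
  obtain ⟨a, A, haA, hadvd, hA1⟩ : ∃ (a : Fin T × Fin K → ℕ) (A : ℕ), (∀ i, B i * a i = A) ∧
      (∀ i, (T * K)! ∣ a i) ∧ 1 ≤ A := by
    refine ⟨fun i => (T * K)! * ∏ j ∈ univ.erase i, B j, (T * K)! * ∏ j, B j,
      fun i => ?_, fun i => Dvd.intro _ rfl,
      Nat.mul_pos (Nat.factorial_pos _) (Finset.prod_pos fun j _ => hB1 j)⟩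
    rw [← Finset.mul_prod_erase univ B (Finset.mem_univ i)]
    ring
  have ha1 : ∀ i, 1 ≤ a i := by
    intro i
    by_contra h
    have h3 : a i = 0 := by omega
    have := haA i
    rw [h3] at this
    omega
  have hBinj : ∀ i j, i ≠ j → B i ≠ B j := by
    intro i j hij h
    have h3 : Bz i = Bz j := by rw [← hBc, ← hBc, h]
    have h4 := hdiv _ (hmem i) _ (hmem j) (fun h => hij (hrinj h))
    have h5 : (C * (r i : ℤ) + M + δ (r i)) - (C * r j + M + δ (r j)) = 0 := by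
      have h6 : C * (r i : ℤ) + M + δ (r i) = Bz i := rfl
      have h7 : C * (r j : ℤ) + M + δ (r j) = Bz j := rfl
      rw [h6, h7, h3, sub_self]
    rw [h5, zero_dvd_iff] at h4
    have h8 := hBz1 i
    have h9 : Bz i = 0 := h4
    omega
  have hCr : (1 : ℝ) ≤ C := by exact_mod_cast hC
  have hRr : (1 : ℝ) ≤ R := by exact_mod_cast hR1
  have hAr : (0 : ℝ) < A := by exact_mod_cast hA1
  have hCR1 : (1 : ℝ) ≤ C * R := by nlinarith
  have hCR0 : (0 : ℝ) < C * R := by linarith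
  set S : ℕ := ∑ i, B i with hS
  have hBS : ∀ i, B i ≤ S := fun i =>
    Finset.single_le_sum (f := B) (fun _ _ => Nat.zero_le _) (Finset.mem_univ i)
  refine ⟨fun g i => a (g, i), A / (C * R), S, S, by positivity, fun g i => ha1 _, ?_,
    fun g i => hadvd _, ?_⟩
  · intro x y hxy
    by_contra hne
    apply hBinj x y hne
    have h3 := haA x
    have hxy' : a x = a y := hxy
    rw [← haA y, hxy'] at h3
    exact Nat.eq_of_mul_eq_mul_right (ha1 y) h3
  intro g g' i i' hij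
  obtain ⟨hG1z, hG2z⟩ := hgap (g, i) (g', i') hij
  simp only at hG1z hG2z
  set Δ : ℤ := (g'.val : ℤ) - g.val with hΔd
  have hneij : r (g', i') ≠ r (g, i) := by
    intro h
    have := hrinj h
    have h2 : g' = g := (Prod.ext_iff.1 this).1
    rw [h2] at hij
    exact lt_irrefl _ hij
  have hdj : (Bz (g', i') - Bz (g, i)) ∣ Bz (g', i') := hdiv _ (hmem _) _ (hmem _) hneij
  have hdi : (Bz (g', i') - Bz (g, i)) ∣ Bz (g, i) := by
    have h6 : Bz (g, i) = Bz (g', i') - (Bz (g', i') - Bz (g, i)) := by ring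
    rw [h6]
    exact dvd_sub (by rw [← h6]; exact hdj) (by rw [← h6])
  set G' : ℤ := Bz (g', i') - Bz (g, i) with hg
  have hh2z : (2 : ℤ) ≤ h := by exact_mod_cast hh
  have hΔ1 : (1 : ℤ) ≤ Δ := by
    have : (g.val : ℤ) < g'.val := by exact_mod_cast hij
    linarith
  have hgpos : 0 < G' := by
    have h1 : 0 < ((h : ℤ) - 1) * (C * R * Δ) := by
      have h2 : (0 : ℤ) < R := by exact_mod_cast (by omega : 0 < R)
      have h3 : (0 : ℤ) < Δ := by linarith
      have h4 : (0 : ℤ) < (h : ℤ) - 1 := by linarith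
      positivity
    have h2 : 0 < (h : ℤ) * G' := lt_of_lt_of_le h1 hG1z
    exact (mul_pos_iff_of_pos_left (by linarith)).1 h2
  obtain ⟨ci, hci⟩ := hdi
  obtain ⟨cj, hcj⟩ := hdj
  have hcji : cj = ci + 1 := by
    have h6 : G' * (cj - ci) = G' * 1 := by
      rw [mul_sub, ← hci, ← hcj, hg]
      ring
    have := mul_left_cancel₀ hgpos.ne' h6
    linarith
  have hci0 : 0 < ci := by
    have h6 := hBz1 (g, i)
    rw [hci] at h6
    exact (mul_pos_iff_of_pos_left hgpos).1 (by linarith)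
  obtain ⟨c, hc⟩ := Int.eq_ofNat_of_zero_le hci0.le
  have hc0 : 0 < c := by
    rw [hc] at hci0
    exact_mod_cast hci0
  obtain ⟨G, hG⟩ := Int.eq_ofNat_of_zero_le hgpos.le
  have hG0 : 0 < G := by
    rw [hG] at hgpos
    exact_mod_cast hgpos
  have hBi : B (g, i) = G * c := by
    have : (B (g, i) : ℤ) = G * c := by rw [hBc, hci, hG, hc]
    exact_mod_cast this
  have hBj : B (g', i') = G * (c + 1) := by
    have : (B (g', i') : ℤ) = G * (c + 1) := by rw [hBc, hcj, hcji, hG, hc]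
    exact_mod_cast this
  have hcc : c * a (g, i) = (c + 1) * a (g', i') := by
    have h6 : G * (c * a (g, i)) = G * ((c + 1) * a (g', i')) := by
      calc G * (c * a (g, i)) = (G * c) * a (g, i) := by ring
        _ = A := by rw [← hBi, haA]
        _ = (G * (c + 1)) * a (g', i') := by rw [← hBj, haA]
        _ = _ := by ring
    exact Nat.eq_of_mul_eq_mul_left hG0 h6
  have hcB' : c + 1 ≤ B (g', i') := by
    rw [hBj]
    exact Nat.le_mul_of_pos_left _ hG0
  have hGg : (G : ℝ) = (G' : ℝ) := by rw [hG]; norm_num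
  set z : ℝ := 1 / (h : ℝ) with hz
  have hhz : (h : ℝ) * z = 1 := by rw [hz]; field_simp
  have hG1 : (1 - z) * ((C : ℝ) * R * (Δ : ℝ)) ≤ G := by
    have h1 : (((h : ℤ) - 1) * (C * R * Δ) : ℝ) ≤ h * G' := by exact_mod_cast hG1z
    push_cast at h1
    have h2 : (h : ℝ) * ((1 - z) * ((C : ℝ) * R * (Δ : ℝ))) ≤ h * G := by
      calc (h : ℝ) * ((1 - z) * ((C : ℝ) * R * (Δ : ℝ)))
          = (h - h * z) * ((C : ℝ) * R * (Δ : ℝ)) := by ring
        _ = (h - 1) * ((C : ℝ) * R * (Δ : ℝ)) := by rw [hhz]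
        _ ≤ h * G := by rw [hGg]; exact h1
    exact le_of_mul_le_mul_left h2 hh0
  have hG2 : (G : ℝ) ≤ (1 + z) * ((C : ℝ) * R * (Δ : ℝ)) := by
    have h1 : (h * G' : ℝ) ≤ (((h : ℤ) + 1) * (C * R * Δ) : ℝ) := by exact_mod_cast hG2z
    push_cast at h1
    have h2 : (h : ℝ) * G ≤ h * ((1 + z) * ((C : ℝ) * R * (Δ : ℝ))) := by
      calc (h : ℝ) * G ≤ (h + 1) * ((C : ℝ) * R * (Δ : ℝ)) := by rw [hGg]; exact h1
        _ = (h + h * z) * ((C : ℝ) * R * (Δ : ℝ)) := by rw [hhz]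
        _ = h * ((1 + z) * ((C : ℝ) * R * (Δ : ℝ))) := by ring
    exact le_of_mul_le_mul_left h2 hh0
  refine ⟨c, hc0, hcB'.trans (hBS _), hcc, fun t => ?_⟩
  have hloc : G * (c * (a (g, i) * t + 1)) = A * t + B (g, i) := by
    calc G * (c * (a (g, i) * t + 1)) = (G * c) * a (g, i) * t + G * c := by ring
      _ = _ := by rw [← hBi, haA]
  have hlocR : (G : ℝ) * ((c * (a (g, i) * t + 1) : ℕ) : ℝ) = A * t + B (g, i) := by
    exact_mod_cast hloc
  have hΔr : (Δ : ℝ) = (g'.val : ℝ) - g.val := by rw [hΔd]; push_cast; ring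
  rw [← hΔr]
  set n : ℝ := ((c * (a (g, i) * t + 1) : ℕ) : ℝ) with hn
  have hn0 : 0 ≤ n := Nat.cast_nonneg _
  have hBiS : (B (g, i) : ℝ) ≤ S := by exact_mod_cast hBS (g, i)
  have hBi0 : (0 : ℝ) ≤ B (g, i) := Nat.cast_nonneg _
  constructor
  · have h1 : (C * R : ℝ) * ((1 - z) * (Δ : ℝ) * n) ≤ A * t + B (g, i) := by
      rw [← hlocR]
      calc (C * R : ℝ) * ((1 - z) * (Δ : ℝ) * n) = ((1 - z) * ((C : ℝ) * R * (Δ : ℝ))) * n := by ring
        _ ≤ G * n := mul_le_mul_of_nonneg_right hG1 hn0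
    have h2 : (C * R : ℝ) * (A / (C * R) * t + S) = A * t + (C * R) * S := by
      field_simp
    have h3 : (C * R : ℝ) * ((1 - z) * (Δ : ℝ) * n) ≤ (C * R : ℝ) * (A / (C * R) * t + S) := by
      rw [h2]
      have h4 : (S : ℝ) ≤ (C * R) * S := by
        have : (0 : ℝ) ≤ S := Nat.cast_nonneg _
        nlinarith
      linarith
    exact le_of_mul_le_mul_left h3 hCR0
  · have h2 : (C * R : ℝ) * (A / (C * R) * t) = A * t := by
      field_simp
    have h3 : (C * R : ℝ) * (A / (C * R) * t) ≤ (C * R : ℝ) * ((1 + z) * (Δ : ℝ) * n) := by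
      rw [h2]
      calc (A : ℝ) * t ≤ G * n := by rw [hlocR]; linarith
        _ ≤ ((1 + z) * ((C : ℝ) * R * (Δ : ℝ))) * n := mul_le_mul_of_nonneg_right hG2 hn0
        _ = _ := by ring
    exact le_of_mul_le_mul_left h3 hCR0

end Pool.Agent.V5helper61.UF
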