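import Mathlib
import Pool.Agent.V5helper61.UF.Comb
import Pool.Agent.V5helper61.UF.Setup

/-! Consecutive integers `c p`, `(c + 1) q` with `p`, `q` prime and `c` bounded: at least `y / (log y) ^ k` of them
in every window `[y, η y]`, `η > 13 / 5`. -/

set_option autoImplicit false

namespace Pool.Agent.V5helper61.UF

open Finset Nat Filter

open Classical in
/-- the coloured Maynard-Tao theorem with the constant `18 / 5` for the forms `a n + 1` -/
def LamHyp : Prop := ∀ (T M : ℕ), 1 ≤ T → (18 / 5 : ℝ) * M < T → ∃ K : ℕ, 1 ≤ K ∧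
  ∀ (a : Fin T → Fin K → ℕ), (∀ g i, 1 ≤ a g i) →
    Function.Injective (fun x : Fin T × Fin K => a x.1 x.2) → (∀ g i, (T * K)! ∣ a g i) →
    ∃ c : ℝ, 0 < c ∧ ∀ᶠ N : ℕ in atTop, ∃ (S : Finset (Fin T)) (σ : Fin T → Fin K),
      M + 1 ≤ S.card ∧ c * (N / (Real.log N) ^ (T * K + 1)) ≤
        (((Icc 1 N).filter (fun n : ℕ => (N : ℝ) / 16 ≤ n ∧
          ∀ g ∈ S, (a g (σ g) * n + 1).Prime)).card : ℝ)

/-- `n` and `n + 1` have large prime factors, with cofactors `c` and `c + 1` less than or equal to `m` -/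
def Pair (m n : ℕ) : Prop := ∃ p q c : ℕ, p.Prime ∧ q.Prime ∧ n = c * p ∧ n + 1 = (c + 1) * q ∧
  1 ≤ c ∧ c + 1 ≤ m

open Classical in
theorem window (hLam : LamHyp) (η : ℝ) (hη : 13 / 5 < η) : ∃ (m k : ℕ) (c₀ : ℝ), 0 < c₀ ∧
    ∀ᶠ y : ℝ in atTop, c₀ * (y / (Real.log y) ^ k) ≤
      (((Icc 1 ⌊η * y⌋₊).filter (fun n : ℕ => y ≤ n ∧ Pair m n)).card : ℝ) := by
  -- the mesh
  obtain ⟨h, hh1, hh2, hh3⟩ : ∃ h : ℕ, (1 + 1 / (h : ℝ)) ^ 3 * (13 / 5 + 1 / (h : ℝ)) <
      η * (1 - 1 / (h : ℝ)) ∧ 2 ≤ h ∧ 1 / (h : ℝ) < 1 / 10 := by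
    have ht : Tendsto (fun h : ℕ => 1 / (h : ℝ)) atTop (nhds 0) := tendsto_one_div_atTop_nhds_zero_nat
    have hc1 : ContinuousAt (fun z : ℝ => (1 + z) ^ 3 * (13 / 5 + z) - η * (1 - z)) 0 := by fun_prop
    have h1 : ∀ᶠ z : ℝ in nhds 0, (1 + z) ^ 3 * (13 / 5 + z) - η * (1 - z) < 0 :=
      hc1.eventually (gt_mem_nhds (by norm_num; linarith))
    have h2 : ∀ᶠ z : ℝ in nhds 0, z < 1 / 10 := gt_mem_nhds (by norm_num)
    obtain ⟨h, e1, e2, e3⟩ := ((ht.eventually h1).and ((ht.eventually h2).and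
      (eventually_ge_atTop 2))).exists
    exact ⟨h, by linarith, e3, e2⟩
  have hhr : (2 : ℝ) ≤ h := by exact_mod_cast hh2
  have hh0 : (0 : ℝ) < h := by linarith
  set z : ℝ := 1 / (h : ℝ) with hz
  have hz0 : 0 < z := by positivity
  have hz1 : 0 < 1 - z := by linarith
  have hη0 : 0 < η := by linarith
  set Λ₀ : ℝ := 10 / z with hΛ₀
  have hΛ0 : 0 < Λ₀ := by positivity
  obtain ⟨T₀, hT₀⟩ := density η z hη hz0 hh1 hh3 Λ₀ le_rfl
  set T : ℕ := T₀ + 1 with hT
  set M : ℕ := (5 * T - 1) / 18 with hM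
  have hM1 : (18 / 5 : ℝ) * M < T := by
    have : 18 * M < 5 * T := by omega
    have : (18 : ℝ) * M < 5 * T := by exact_mod_cast this
    linarith
  have hM2 : (T : ℝ) ≤ (18 / 5) * ((M : ℝ) + 1) := by
    have : 5 * T ≤ 18 * (M + 1) := by omega
    have : (5 : ℝ) * T ≤ 18 * (M + 1) := by exact_mod_cast this
    linarith
  obtain ⟨K, hK, hcore⟩ := hLam T M (by omega) hM1
  obtain ⟨a, Q, m, b, hQ, ha1, hinj, hadvd, hloc⟩ := setup T K h hh2
  obtain ⟨c, hc, hcore⟩ := hcore a ha1 hinj hadvd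
  have hden := hT₀ T (by omega) M hM2
  set k : ℕ := T * K + 1 with hk
  -- the scale
  set κ : ℝ := 16 * Λ₀ / Q with hκ
  have hκ0 : 0 < κ := by positivity
  refine ⟨m, k, c * κ / (2 ^ k * T ^ 2), by positivity, ?_⟩
  have htN : Tendsto (fun y : ℝ => ⌈κ * y⌉₊) atTop atTop :=
    tendsto_nat_ceil_atTop.comp (tendsto_id.const_mul_atTop hκ0)
  filter_upwards [htN.eventually hcore, eventually_ge_atTop (3 : ℝ), eventually_ge_atTop (κ + 1),
    eventually_ge_atTop (Q / Λ₀), eventually_ge_atTop (16 * Q * b / (κ * z * Q * Q) + 1),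
    eventually_ge_atTop (16 / κ)]
    with y hy hy3 hyκ hyQ hyb hyκ2
  obtain ⟨S, σ, hScard, hF⟩ := hy
  set N : ℕ := ⌈κ * y⌉₊ with hN
  have hy0 : 0 < y := by linarith
  have hN1 : κ * y ≤ N := Nat.le_ceil _
  have hN2 : (N : ℝ) < κ * y + 1 := Nat.ceil_lt_add_one (by positivity)
  have hN16 : (16 : ℝ) ≤ N := by
    have : 16 ≤ κ * y := by
      rw [div_le_iff₀ hκ0] at hyκ2
      linarith
    linarith
  set F : Finset ℕ := (Icc 1 N).filter (fun n : ℕ => (N : ℝ) / 16 ≤ n ∧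
          ∀ g ∈ S, (a g (σ g) * n + 1).Prime) with hFd
  -- the pair of classes for each `t`
  have hpair : ∀ t ∈ F, ∃ g g' : Fin T, ∃ n : ℕ, (∃ cc : ℕ, 1 ≤ cc ∧
      cc * (a g (σ g)) = (cc + 1) * (a g' (σ g')) ∧ g.val < g'.val ∧ n = cc * (a g (σ g) * t + 1)) ∧
      (1 ≤ n ∧ n ≤ ⌊η * y⌋₊) ∧ y ≤ n ∧ Pair m n := by
    intro t ht
    rw [hFd, mem_filter, mem_Icc] at ht
    obtain ⟨⟨ht1, htN⟩, ht2, ht3⟩ := ht
    have htr : (t : ℝ) ≤ N := by exact_mod_cast htN
    have ht1r : (1 : ℝ) ≤ t := by exact_mod_cast ht1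
    -- the value of `Λ`
    set Λ : ℝ := Q * t / y with hΛ
    have hΛy : Λ * y = Q * t := by rw [hΛ]; field_simp
    have hΛ1 : Λ₀ ≤ Λ := by
      rw [hΛ, le_div_iff₀ hy0]
      have h1 : κ * y / 16 ≤ t := by linarith
      have h2 : Q * (κ * y / 16) = Λ₀ * y := by
        rw [hκ]; field_simp
      rw [← h2]
      exact mul_le_mul_of_nonneg_left h1 hQ.le
    have hΛ2 : Λ ≤ 17 * Λ₀ := by
      rw [hΛ, div_le_iff₀ hy0]
      have h1 : Q * t ≤ Q * (κ * y + 1) := mul_le_mul_of_nonneg_left (by linarith) hQ.le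
      have h2 : Q * (κ * y) = 16 * Λ₀ * y := by
        rw [hκ]; field_simp
      have h3 : Q ≤ Λ₀ * y := by
        rw [div_le_iff₀ hΛ0] at hyQ
        linarith
      nlinarith
    have hcardS : M + 1 ≤ (S.image Fin.val).card := by
      rw [Finset.card_image_of_injective _ Fin.val_injective]
      exact hScard
    obtain ⟨x, hx, x', hx', hxx, hw1, hw2⟩ := hden Λ hΛ1 hΛ2 (S.image Fin.val) (by
      intro x hx
      obtain ⟨g, -, rfl⟩ := mem_image.1 hx
      exact g.2) hcardS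
    obtain ⟨g, hg, rfl⟩ := mem_image.1 hx
    obtain ⟨g', hg', rfl⟩ := mem_image.1 hx'
    obtain ⟨cc, hcc1, hccm, hcca, hccloc⟩ := hloc g g' (σ g) (σ g') hxx
    obtain ⟨hl1, hl2⟩ := hccloc t
    refine ⟨g, g', cc * (a g (σ g) * t + 1), ⟨cc, hcc1, hcca, hxx, rfl⟩, ?_⟩
    set n : ℕ := cc * (a g (σ g) * t + 1) with hn
    have hΔ : (0 : ℝ) < (g'.val : ℝ) - g.val := by
      have : (g.val : ℝ) < g'.val := by exact_mod_cast hxx
      linarith
    set Δ : ℝ := (g'.val : ℝ) - g.val with hΔd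
    have hn0 : (0 : ℝ) ≤ n := Nat.cast_nonneg _
    have hyn : y ≤ n := by
      have h1 : Δ * (1 + z) * y ≤ (1 + z) * Δ * n := by
        calc Δ * (1 + z) * y ≤ Λ * y := mul_le_mul_of_nonneg_right hw2 hy0.le
          _ = Q * t := hΛy
          _ ≤ (1 + z) * Δ * n := hl2
      have h2 : ((1 + z) * Δ) * y ≤ ((1 + z) * Δ) * n := by linarith
      exact le_of_mul_le_mul_left h2 (by positivity)
    have hnη : (n : ℝ) ≤ η * y := by
      have hb : (b : ℝ) ≤ z * (Q * t) := by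
        -- `t ≥ κ y / 16`
        have h1 : κ * y / 16 ≤ t := by linarith
        have h2 : 16 * Q * b ≤ y * (κ * z * Q * Q) := by
          have h3 : 16 * Q * b / (κ * z * Q * Q) ≤ y := by linarith
          rwa [div_le_iff₀ (by positivity)] at h3
        have h4 : 16 * b ≤ y * (κ * z * Q) := by
          have : Q * (16 * b) ≤ Q * (y * (κ * z * Q)) := by linarith
          exact le_of_mul_le_mul_left this hQ
        have h5 : z * (Q * (κ * y / 16)) ≤ z * (Q * t) := by gcongr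
        linarith
      have h1 : (1 - z) * Δ * n ≤ (1 + z) * (Λ * y) := by
        rw [hΛy]
        linarith
      have h2 : (1 - z) * Δ * n ≤ (1 - z) * Δ * (η * y) := by
        calc (1 - z) * Δ * n ≤ (1 + z) * (Λ * y) := h1
          _ = (Λ * (1 + z)) * y := by ring
          _ ≤ (η * (1 - z) * Δ) * y := mul_le_mul_of_nonneg_right hw1 hy0.le
          _ = _ := by ring
      exact le_of_mul_le_mul_left h2 (by positivity)
    refine ⟨⟨?_, Nat.le_floor hnη⟩, hyn, ?_⟩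
    · have : (1 : ℝ) ≤ n := by linarith
      exact_mod_cast this
    · refine ⟨a g (σ g) * t + 1, a g' (σ g') * t + 1, cc, ht3 g hg, ht3 g' hg', rfl, ?_, hcc1, hccm⟩
      calc n + 1 = (cc * a g (σ g)) * t + cc + 1 := by rw [hn]; ring
        _ = ((cc + 1) * a g' (σ g')) * t + cc + 1 := by rw [hcca]
        _ = _ := by ring
  choose! f1 f2 fn hf1 hf2 hf3 hf4 using hpair
  -- the counting
  set G : Finset ℕ := (Icc 1 ⌊η * y⌋₊).filter (fun n : ℕ => y ≤ n ∧ Pair m n) with hG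
  have hcard : F.card ≤ T ^ 2 * G.card := by
    have hmaps : ∀ t ∈ F, (fun t => ((f1 t, f2 t), fn t)) t ∈
        ((univ : Finset (Fin T)) ×ˢ (univ : Finset (Fin T))) ×ˢ G := by
      intro t ht
      rw [mem_product, mem_product]
      refine ⟨⟨mem_univ _, mem_univ _⟩, ?_⟩
      rw [hG, mem_filter, mem_Icc]
      exact ⟨hf2 t ht, hf3 t ht, hf4 t ht⟩
    have hinj2 : Set.InjOn (fun t => ((f1 t, f2 t), fn t)) (F : Set ℕ) := by
      intro t ht t' ht' heq
      simp only [Prod.mk.injEq] at heq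
      obtain ⟨⟨e1, e2⟩, e3⟩ := heq
      obtain ⟨cc, hc1, hca, hgg, hcn⟩ := hf1 t ht
      obtain ⟨cc', hc1', hca', hgg', hcn'⟩ := hf1 t' ht'
      rw [← e1, ← e2] at hca'
      rw [← e1] at hcn'
      -- the multiplier is determined by the slopes
      have hcc : cc = cc' := by
        have i1 : cc * (a (f1 t) (σ (f1 t)) - a (f2 t) (σ (f2 t))) = a (f2 t) (σ (f2 t)) := by
          rw [Nat.mul_sub, hca, add_mul, one_mul]
          omega
        have i2 : cc' * (a (f1 t) (σ (f1 t)) - a (f2 t) (σ (f2 t))) = a (f2 t) (σ (f2 t)) := by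
          rw [Nat.mul_sub, hca', add_mul, one_mul]
          omega
        have i3 : 0 < a (f1 t) (σ (f1 t)) - a (f2 t) (σ (f2 t)) := by
          by_contra h0
          have h1 : a (f1 t) (σ (f1 t)) - a (f2 t) (σ (f2 t)) = 0 := by omega
          rw [h1, mul_zero] at i1
          have := ha1 (f2 t) (σ (f2 t))
          omega
        exact Nat.eq_of_mul_eq_mul_right i3 (i1.trans i2.symm)
      rw [hcn, hcn', hcc] at e3
      have e4 := Nat.eq_of_mul_eq_mul_left (by omega : 0 < cc') e3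
      have e5 : a (f1 t) (σ (f1 t)) * t = a (f1 t) (σ (f1 t)) * t' := by omega
      exact Nat.eq_of_mul_eq_mul_left (ha1 _ _) e5
    have h1 := Finset.card_le_card_of_injOn _ hmaps hinj2
    rw [card_product, card_product, Finset.card_univ, Fintype.card_fin] at h1
    rw [sq]
    exact h1
  -- the logarithms
  have hlogy : 0 < Real.log y := Real.log_pos (by linarith)
  have hlogN : 0 < Real.log N := Real.log_pos (by linarith)
  have hlog2 : Real.log N ≤ 2 * Real.log y := by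
    have h1 : (N : ℝ) ≤ y ^ 2 := by nlinarith
    calc Real.log N ≤ Real.log (y ^ 2) := Real.log_le_log (by linarith) h1
      _ = 2 * Real.log y := by rw [Real.log_pow]; norm_num
  have h5 : (Real.log N) ^ k ≤ 2 ^ k * (Real.log y) ^ k := by
    rw [← mul_pow]
    exact pow_le_pow_left₀ hlogN.le hlog2 k
  have hT1 : (0 : ℝ) < T := by rw [hT]; positivity
  have h6 : c * (κ * y / (2 ^ k * (Real.log y) ^ k)) ≤ c * (N / (Real.log N) ^ k) := by
    apply mul_le_mul_of_nonneg_left _ hc.le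
    exact div_le_div₀ (by positivity) hN1 (by positivity) h5
  have h7 : (F.card : ℝ) ≤ (T : ℝ) ^ 2 * G.card := by exact_mod_cast hcard
  have h8 : c * (κ * y / (2 ^ k * (Real.log y) ^ k)) ≤ (T : ℝ) ^ 2 * G.card :=
    h6.trans (hF.trans h7)
  have h9 : c * κ / (2 ^ k * (T : ℝ) ^ 2) * (y / (Real.log y) ^ k) =
      c * (κ * y / (2 ^ k * (Real.log y) ^ k)) / (T : ℝ) ^ 2 := by
    field_simp
  rw [h9, div_le_iff₀ (by positivity)]
  linarith

end Pool.Agent.V5helper61.UF
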