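import Mathlib
import Pool.Agent.V5helper61.UF.Window

/-! Finite sets of positive integers with sum of reciprocals `1`: consecutive integers which are both missing. -/

set_option autoImplicit false

namespace Pool.Agent.V5helper61.UF

open Finset Nat Filter

/-- a solution: a finite set of at least two positive integers whose reciprocals have sum `1` -/
def Solution (S : Finset ℕ) : Prop :=
  2 ≤ S.card ∧ (∀ x ∈ S, 0 < x) ∧ (∑ x ∈ S, (1 : ℚ) / (x : ℚ)) = 1

/-- no member of a solution is divisible by a very large prime -/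
theorem no_multiple {S : Finset ℕ} (hS : Solution S) {p B : ℕ} (hp : p.Prime)
    (hB : ∀ x ∈ S, p ∣ x → x ≤ p * B) (hpB : B * B ! < p) : ∀ x ∈ S, ¬ p ∣ x := by
  classical
  obtain ⟨-, hpos, hsum⟩ := hS
  by_contra hcon
  push Not at hcon
  obtain ⟨x₀, hx₀, hpx₀⟩ := hcon
  set S₁ := S.filter (fun x => p ∣ x) with hS₁
  set S₂ := S.filter (fun x => ¬ p ∣ x) with hS₂
  set L : ℕ := ∏ x ∈ S₂, x with hL
  set E : ℕ := ∑ x ∈ S₂, L / x with hE
  set A : ℕ := ∑ x ∈ S₁, B ! / (x / p) with hA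
  have hp0 : 0 < p := hp.pos
  have hL0 : 0 < L := Finset.prod_pos fun x hx => hpos x (mem_filter.1 hx).1
  have hpL : ¬ p ∣ L := by
    intro h
    obtain ⟨x, hx, hpx⟩ := (hp.prime.dvd_finsetProd_iff _).1 h
    exact (mem_filter.1 hx).2 hpx
  -- quotients
  have hq : ∀ x ∈ S₁, 1 ≤ x / p ∧ x / p ≤ B ∧ x = p * (x / p) := by
    intro x hx
    obtain ⟨hxS, hpx⟩ := mem_filter.1 hx
    have h1 : x = p * (x / p) := (Nat.mul_div_cancel' hpx).symm
    have h2 := hB x hxS hpx
    have h3 := hpos x hxS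
    refine ⟨Nat.div_pos (Nat.le_of_dvd h3 hpx) hp0, ?_, h1⟩
    rw [h1] at h2
    exact Nat.le_of_mul_le_mul_left h2 hp0
  have hA1 : (∑ x ∈ S₁, (1 : ℚ) / (x : ℚ)) = A / (p * B !) := by
    rw [hA]
    push_cast
    rw [Finset.sum_div]
    refine Finset.sum_congr rfl fun x hx => ?_
    obtain ⟨h1, h2, h3⟩ := hq x hx
    have h4 : (x / p) ∣ B ! := Nat.dvd_factorial h1 h2
    have h5 : (((B ! / (x / p) : ℕ)) : ℚ) = (B ! : ℚ) / ((x / p : ℕ) : ℚ) :=
      Nat.cast_div h4 (by exact_mod_cast (by omega : x / p ≠ 0))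
    rw [h5]
    have h6 : (x : ℚ) = p * ((x / p : ℕ) : ℚ) := by exact_mod_cast h3
    have h7 : (((x / p : ℕ)) : ℚ) ≠ 0 := by exact_mod_cast (by omega : x / p ≠ 0)
    have h8 : (p : ℚ) ≠ 0 := by exact_mod_cast hp0.ne'
    have h9 : (B ! : ℚ) ≠ 0 := by exact_mod_cast (Nat.factorial_ne_zero B)
    rw [h6]
    field_simp
  have hE1 : (∑ x ∈ S₂, (1 : ℚ) / (x : ℚ)) = E / L := by
    rw [hE]
    push_cast
    rw [Finset.sum_div]
    refine Finset.sum_congr rfl fun x hx => ?_
    have h1 : x ∣ L := Finset.dvd_prod_of_mem (fun x => x) hx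
    have h2 := hpos x (mem_filter.1 hx).1
    have h3 : (x : ℚ) ≠ 0 := by exact_mod_cast h2.ne'
    have h4 : (((L / x : ℕ)) : ℚ) = (L : ℚ) / (x : ℚ) := Nat.cast_div h1 h3
    have h5 : (L : ℚ) ≠ 0 := by exact_mod_cast hL0.ne'
    rw [h4]
    field_simp
  have hsplit : (∑ x ∈ S₁, (1 : ℚ) / (x : ℚ)) + (∑ x ∈ S₂, (1 : ℚ) / (x : ℚ)) = 1 := by
    rw [hS₁, hS₂]
    exact (Finset.sum_filter_add_sum_filter_not S (fun x => p ∣ x) _).trans hsum
  rw [hA1, hE1] at hsplit
  have hBf : (B ! : ℚ) ≠ 0 := by exact_mod_cast (Nat.factorial_ne_zero B)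
  have hpq : (p : ℚ) ≠ 0 := by exact_mod_cast hp0.ne'
  have hLq : (L : ℚ) ≠ 0 := by exact_mod_cast hL0.ne'
  have hmain : (A : ℚ) * L + E * (p * B !) = p * B ! * L := by
    field_simp at hsplit
    linarith
  have hmain' : A * L + E * (p * B !) = p * B ! * L := by exact_mod_cast hmain
  have hdvd : p ∣ A * L := by
    have h1 : p ∣ A * L + E * (p * B !) := by
      rw [hmain', mul_assoc]
      exact dvd_mul_right _ _
    have h2 : p ∣ E * (p * B !) := Dvd.dvd.mul_left (dvd_mul_right _ _) _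
    exact (Nat.dvd_add_left h2).1 h1
  have hpA : p ∣ A := (hp.dvd_mul.1 hdvd).resolve_right hpL
  have hx₀' : x₀ ∈ S₁ := mem_filter.2 ⟨hx₀, hpx₀⟩
  have hApos : 0 < A := by
    obtain ⟨h1, h2, -⟩ := hq x₀ hx₀'
    have h3 : 0 < B ! / (x₀ / p) := Nat.div_pos (Nat.le_of_dvd (Nat.factorial_pos _)
      (Nat.dvd_factorial h1 h2)) h1
    exact lt_of_lt_of_le h3 (Finset.single_le_sum (f := fun x => B ! / (x / p))
      (fun _ _ => Nat.zero_le _) hx₀')
  have hcardS₁ : S₁.card ≤ B := by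
    have h1 : S₁.card ≤ (Icc 1 B).card := by
      refine Finset.card_le_card_of_injOn (fun x => x / p) (fun x hx => ?_) (fun x hx y hy hxy => ?_)
      · obtain ⟨h1, h2, -⟩ := hq x hx
        exact mem_coe.2 (mem_Icc.2 ⟨h1, h2⟩)
      · obtain ⟨-, -, h3⟩ := hq x hx
        obtain ⟨-, -, h4⟩ := hq y hy
        simp only at hxy
        rw [h3, h4, hxy]
    simpa using h1
  have hAle : A ≤ B * B ! := by
    calc A ≤ ∑ _x ∈ S₁, B ! := Finset.sum_le_sum fun x _ => Nat.div_le_self _ _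
      _ = S₁.card * B ! := by rw [Finset.sum_const, smul_eq_mul]
      _ ≤ B * B ! := Nat.mul_le_mul_right _ hcardS₁
  have := Nat.le_of_dvd hApos hpA
  omega

/-- the least member of a solution is at most `max / e + 1` -/
theorem min_le {S : Finset ℕ} (hS : Solution S) {X x₁ : ℕ} (hX : ∀ x ∈ S, x ≤ X) (hx₁ : x₁ ∈ S)
    (hmin : ∀ x ∈ S, x₁ ≤ x) : (x₁ : ℝ) ≤ X / 2.7182 + 1 := by
  classical
  obtain ⟨hcard, hpos, hsum⟩ := hS
  have hx₁pos := hpos x₁ hx₁
  have hx₁2 : 2 ≤ x₁ := by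
    by_contra h
    have h1 : x₁ = 1 := by omega
    obtain ⟨y, hy, hne⟩ : ∃ y ∈ S, y ≠ x₁ := by
      by_contra hcon
      push Not at hcon
      have : S ⊆ {x₁} := fun y hy => mem_singleton.2 (hcon y hy)
      have := Finset.card_le_card this
      simp at this
      omega
    have h2 : ∑ x ∈ ({x₁, y} : Finset ℕ), (1 : ℚ) / (x : ℚ) ≤ ∑ x ∈ S, (1 : ℚ) / (x : ℚ) := by
      apply Finset.sum_le_sum_of_subset_of_nonneg
      · intro z hz
        rw [mem_insert, mem_singleton] at hz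
        rcases hz with rfl | rfl
        · exact hx₁
        · exact hy
      · intro z _ _
        positivity
    rw [hsum, Finset.sum_pair hne.symm, h1] at h2
    have h3 : (0 : ℚ) < 1 / (y : ℚ) := by
      have := hpos y hy
      positivity
    rw [Nat.cast_one, div_one] at h2
    linarith
  have hx₁X : x₁ ≤ X := hX x₁ hx₁
  have hsumR : (∑ x ∈ S, (1 : ℝ) / (x : ℝ)) = 1 := by
    have h : (((∑ x ∈ S, (1 : ℚ) / (x : ℚ)) : ℚ) : ℝ) = ((1 : ℚ) : ℝ) := by rw [hsum]
    push_cast at h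
    exact h
  have h1 : (∑ x ∈ S, (1 : ℝ) / (x : ℝ)) ≤ ∑ x ∈ Icc x₁ X, (1 : ℝ) / (x : ℝ) := by
    apply Finset.sum_le_sum_of_subset_of_nonneg
    · intro z hz
      exact mem_Icc.2 ⟨hmin z hz, hX z hz⟩
    · intro z _ _
      positivity
  have hlog : ∀ N : ℕ, x₁ ≤ N → ∑ x ∈ Icc x₁ N, (1 : ℝ) / (x : ℝ) ≤
      Real.log N - Real.log ((x₁ : ℝ) - 1) := by
    intro N hN
    have hstep : ∀ n : ℕ, 2 ≤ n → (1 : ℝ) / n ≤ Real.log n - Real.log ((n : ℝ) - 1) := by
      intro n hn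
      have hnr : (2 : ℝ) ≤ n := by exact_mod_cast hn
      have h2 := Real.log_le_sub_one_of_pos (show (0 : ℝ) < (n - 1) / n by
        apply _root_.div_pos <;> linarith)
      rw [Real.log_div (by linarith) (by linarith)] at h2
      have h3 : ((n : ℝ) - 1) / n - 1 = -(1 / n) := by
        field_simp
        ring
      rw [h3] at h2
      linarith
    induction N, hN using Nat.le_induction with
    | base =>
      rw [Icc_self, sum_singleton]
      exact hstep x₁ hx₁2
    | succ N hN ih =>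
      rw [Finset.sum_Icc_succ_top (by omega)]
      have h2 := hstep (N + 1) (by omega)
      push_cast at h2 ⊢
      rw [add_sub_cancel_right] at h2
      linarith
  have h2 := hlog X hx₁X
  have hx₁r : (2 : ℝ) ≤ x₁ := by exact_mod_cast hx₁2
  have hXr : (x₁ : ℝ) ≤ X := by exact_mod_cast hx₁X
  have h3 : 1 ≤ Real.log (X / ((x₁ : ℝ) - 1)) := by
    rw [Real.log_div (by linarith) (by linarith)]
    linarith
  have h4 : Real.exp 1 ≤ X / ((x₁ : ℝ) - 1) := by
    rw [Real.le_log_iff_exp_le (by apply _root_.div_pos <;> linarith)] at h3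
    exact h3
  have h5 : (2.7182 : ℝ) ≤ X / ((x₁ : ℝ) - 1) := by
    have := Real.exp_one_gt_d9
    linarith
  rw [le_div_iff₀ (by linarith)] at h5
  have h6 : (x₁ : ℝ) - 1 ≤ X / 2.7182 := by
    rw [le_div_iff₀ (by norm_num)]
    linarith
  linarith

/-- the integers `n` such that `n` and `n + 1` are strictly between the least and the largest member of `S`
and both do not belong to `S` -/
def missing (S : Finset ℕ) : Finset ℕ :=
  (Icc 1 (S.sup id)).filter (fun n => (∃ x ∈ S, x < n) ∧ n + 1 < S.sup id ∧ n ∉ S ∧ n + 1 ∉ S)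

theorem main (hLam : LamHyp) : ∃ C X₀ : ℕ, ∀ S : Finset ℕ, Solution S → X₀ ≤ S.sup id →
    ((S.sup id : ℕ) : ℝ) / (Real.log (S.sup id : ℕ)) ^ C ≤ ((missing S).card : ℝ) := by
  classical
  obtain ⟨m, k, c₀, hc₀, hwin⟩ := window hLam 2.7 (by norm_num)
  -- the scale `y = X / 2.7182 + 2`
  have ht : Tendsto (fun X : ℕ => (X : ℝ) / 2.7182 + 2) atTop atTop :=
    tendsto_atTop_add_const_right _ _ (tendsto_natCast_atTop_atTop.atTop_div_const (by norm_num))
  have hev : ∀ᶠ X : ℕ in atTop, c₀ * (((X : ℝ) / 2.7182 + 2) /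
      (Real.log ((X : ℝ) / 2.7182 + 2)) ^ k) ≤
      (((Icc 1 ⌊2.7 * ((X : ℝ) / 2.7182 + 2)⌋₊).filter
        (fun n : ℕ => (X : ℝ) / 2.7182 + 2 ≤ n ∧ Pair m n)).card : ℝ) := ht.eventually hwin
  -- logarithm large
  have hlogt : Tendsto (fun X : ℕ => Real.log X) atTop atTop :=
    Real.tendsto_log_atTop.comp tendsto_natCast_atTop_atTop
  obtain ⟨X₁, hX₁⟩ := Filter.eventually_atTop.1 (hev.and ((hlogt.eventually
    (eventually_ge_atTop (3 / c₀))).and (eventually_ge_atTop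
      (2000 + 3 * ((m + 1) * ((3 * m) * (3 * m)! + 1))))))
  refine ⟨k + 1, X₁, ?_⟩
  intro S hS hX
  set X : ℕ := S.sup id with hXd
  obtain ⟨hc, hlogX, hXbig⟩ := hX₁ X hX
  have hXr : (2000 + 3 * (((m : ℝ) + 1) * ((3 * m) * ((3 * m)! : ℕ) + 1))) ≤ X := by
    exact_mod_cast hXbig
  have hmf : (0 : ℝ) ≤ ((m : ℝ) + 1) * ((3 * m) * ((3 * m)! : ℕ) + 1) := by positivity
  have hX0 : (2000 : ℝ) ≤ X := by linarith
  have hXmax : ∀ x ∈ S, x ≤ X := fun x hx => Finset.le_sup (f := id) hx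
  have hne : S.Nonempty := Finset.card_pos.1 (by have := hS.1; omega)
  set x₁ := S.min' hne with hx₁
  have hx₁S : x₁ ∈ S := S.min'_mem hne
  have hx₁le := min_le hS hXmax hx₁S (fun x hx => S.min'_le x hx)
  set y : ℝ := (X : ℝ) / 2.7182 + 2 with hy
  have hyX : y ≤ X := by
    rw [hy]
    have : (X : ℝ) / 2.7182 ≤ X / 2 := by
      apply div_le_div_of_nonneg_left (by linarith) (by norm_num) (by norm_num)
    linarith
  have hyX3 : (X : ℝ) / 3 ≤ y := by
    rw [hy]
    have : (X : ℝ) / 3 ≤ X / 2.7182 := by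
      apply div_le_div_of_nonneg_left (by linarith) (by norm_num) (by norm_num)
    linarith
  have hy1 : 1 < y := by linarith
  -- the pairs are missing
  have hsub : ((Icc 1 ⌊2.7 * y⌋₊).filter (fun n : ℕ => y ≤ n ∧ Pair m n)) ⊆ missing S := by
    intro n hn
    rw [mem_filter, mem_Icc] at hn
    obtain ⟨⟨hn1, hn2⟩, hyn, p, q, c, hp, hq, hnp, hnq, hc1, hcm⟩ := hn
    have hn3 : (n : ℝ) ≤ 2.7 * y := (Nat.le_floor_iff (by linarith)).1 hn2
    have hn4 : (n : ℝ) + 1 < X := by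
      rw [hy] at hn3
      have h1 : 2.7 * ((X : ℝ) / 2.7182 + 2) = X - (0.0182 / 2.7182) * X + 5.4 := by ring
      rw [h1] at hn3
      have h2 : (6.5 : ℝ) < 0.0182 / 2.7182 * X := by
        have : (0.0182 / 2.7182 : ℝ) * 2000 ≤ 0.0182 / 2.7182 * X :=
          mul_le_mul_of_nonneg_left hX0 (by norm_num)
        have h3 : (6.5 : ℝ) < (0.0182 / 2.7182 : ℝ) * 2000 := by norm_num
        linarith
      linarith
    have hnX : n + 1 < X := by exact_mod_cast hn4
    have hx₁n : x₁ < n := by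
      have : (x₁ : ℝ) < n := by linarith
      exact_mod_cast this
    -- a large prime factor excludes from `S`
    have hex : ∀ r d : ℕ, r.Prime → 1 ≤ d → d ≤ m → y ≤ ((d * r : ℕ) : ℝ) → d * r ∉ S := by
      intro r d hr hd1 hdm hyd hmem
      have hm0 : (0 : ℝ) ≤ m := Nat.cast_nonneg _
      have hdr : (d : ℝ) ≤ m := by exact_mod_cast hdm
      have hr0 : (0 : ℝ) ≤ r := Nat.cast_nonneg _
      have h1 : (X : ℝ) ≤ 3 * m * r := by
        push_cast at hyd
        have h2 : (d : ℝ) * r ≤ m * r := mul_le_mul_of_nonneg_right hdr hr0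
        linarith
      have h2 : X ≤ r * (3 * m) := by
        have : (X : ℝ) ≤ ((r * (3 * m) : ℕ) : ℝ) := by
          push_cast
          linarith
        exact_mod_cast this
      have h3 : 3 * m * (3 * m)! < r := by
        have h4 : ((3 * m * (3 * m)! : ℕ) : ℝ) < r := by
          push_cast
          have h5 : 3 * (((m : ℝ) + 1) * ((3 * m) * ((3 * m)! : ℕ) + 1)) < 3 * ((m + 1) * r) := by
            nlinarith
          have h6 : ((m : ℝ) + 1) * ((3 * m) * ((3 * m)! : ℕ) + 1) < (m + 1) * r := by linarith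
          have h7 := lt_of_mul_lt_mul_left h6 (by positivity)
          linarith
        exact_mod_cast h4
      exact no_multiple hS hr (fun x hx _ => (hXmax x hx).trans h2) h3 (d * r) hmem
        (dvd_mul_left _ _)
    rw [missing, mem_filter, mem_Icc]
    refine ⟨⟨hn1, by omega⟩, ⟨x₁, hx₁S, hx₁n⟩, hnX, ?_, ?_⟩
    · rw [hnp]
      exact hex p c hp hc1 (by omega) (by rw [← hnp]; exact hyn)
    · rw [hnq]
      exact hex q (c + 1) hq (by omega) hcm (by rw [← hnq]; push_cast; linarith)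
  have hcard : (((Icc 1 ⌊2.7 * y⌋₊).filter (fun n : ℕ => y ≤ n ∧ Pair m n)).card : ℝ) ≤
      ((missing S).card : ℝ) := by exact_mod_cast Finset.card_le_card hsub
  refine le_trans ?_ hcard
  refine le_trans ?_ hc
  -- `X / (log X) ^ (k + 1) ≤ c₀ y / (log y) ^ k`
  have hlogy0 : 0 < Real.log y := Real.log_pos hy1
  have hlogyX : Real.log y ≤ Real.log X := Real.log_le_log (by linarith) hyX
  have hlogX0 : 0 < Real.log X := lt_of_lt_of_le hlogy0 hlogyX
  have h1 : y / (Real.log X) ^ k ≤ y / (Real.log y) ^ k := by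
    apply div_le_div_of_nonneg_left (by linarith) (by positivity)
    exact pow_le_pow_left₀ hlogy0.le hlogyX k
  have h2 : (X : ℝ) / (Real.log X) ^ (k + 1) ≤ c₀ * (y / (Real.log X) ^ k) := by
    rw [div_le_iff₀ (by positivity), pow_succ]
    have h3 : c₀ * (y / Real.log X ^ k) * (Real.log X ^ k * Real.log X) = c₀ * Real.log X * y := by
      field_simp
    rw [h3]
    have h4 : 3 ≤ c₀ * Real.log X := by
      rw [div_le_iff₀ hc₀] at hlogX
      linarith
    nlinarith
  exact h2.trans (mul_le_mul_of_nonneg_left h1 hc₀.le)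

/-- finitely many solutions without a gap larger than `2` -/
theorem gap_two {C X₀ : ℕ} (h : ∀ S : Finset ℕ, Solution S → X₀ ≤ S.sup id →
    ((S.sup id : ℕ) : ℝ) / (Real.log (S.sup id : ℕ)) ^ C ≤ ((missing S).card : ℝ)) :
    {S : Finset ℕ | Solution S ∧ ∀ x ∈ S, ∀ y ∈ S, x < y → ∃ z ∈ S, x < z ∧ z ≤ x + 2}.Finite := by
  classical
  apply Set.Finite.subset (Finset.finite_toSet ((range (X₀ + 3)).powerset))
  rintro S ⟨hS, hgap⟩
  rw [mem_coe, mem_powerset]
  intro x hx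
  rw [mem_range]
  by_contra hx3
  have hle : x ≤ S.sup id := Finset.le_sup (f := id) hx
  have h1 := h S hS (by omega)
  have h3 : (3 : ℝ) ≤ (S.sup id : ℕ) := by exact_mod_cast (by omega : 3 ≤ S.sup id)
  have h2 : (0 : ℝ) < ((S.sup id : ℕ) : ℝ) / (Real.log (S.sup id : ℕ)) ^ C := by
    have : 0 < Real.log (S.sup id : ℕ) := Real.log_pos (by linarith)
    positivity
  have h4 : 0 < (missing S).card := by
    have : (0 : ℝ) < ((missing S).card : ℝ) := lt_of_lt_of_le h2 h1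
    exact_mod_cast this
  obtain ⟨n, hn⟩ := Finset.card_pos.1 h4
  rw [missing, mem_filter] at hn
  obtain ⟨-, ⟨x₀, hx₀, hx₀n⟩, hnX, hn1, hn2⟩ := hn
  -- the largest member below `n`
  have hne : (S.filter (fun x => x < n)).Nonempty := ⟨x₀, mem_filter.2 ⟨hx₀, hx₀n⟩⟩
  set v := (S.filter (fun x => x < n)).max' hne with hv
  have hvm := Finset.max'_mem _ hne
  rw [← hv, mem_filter] at hvm
  have hSne : S.Nonempty := ⟨x, hx⟩
  obtain ⟨w, hw, hwX⟩ := Finset.exists_mem_eq_sup S hSne id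
  have hwX' : S.sup id = w := hwX
  obtain ⟨z, hz, hz1, hz2⟩ := hgap v hvm.1 w hw (by omega)
  have hzn : ¬ z < n := by
    intro hzn
    have := Finset.le_max' (S.filter (fun x => x < n)) z (mem_filter.2 ⟨hz, hzn⟩)
    rw [← hv] at this
    omega
  have hz3 : z = n ∨ z = n + 1 := by omega
  rcases hz3 with rfl | rfl
  · exact hn1 hz
  · exact hn2 hz

end Pool.Agent.V5helper61.UF
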