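import Mathlib
import Pool.Agent.Y827.RO.LamR
import Pool.Agent.V5helper61.UF.Unit

/-! The coloured Maynard-Tao theorem with the constant `18 / 5` of the starting library
(`Pool.Agent.Y827.RO.lamR0`), for the forms `a n + 1`. -/

set_option autoImplicit false

namespace Pool.Agent.V5helper61.UF

open Finset Nat Filter

open Classical in
theorem lamHyp : LamHyp := by
  intro T M hT hTM
  obtain ⟨K, hK, δ, hδ, h⟩ := Pool.Agent.Y827.RO.lamR0 T M hT hTM
  refine ⟨K, hK, fun a ha1 hinj hadvd => ?_⟩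
  set A : ℕ := ∑ g, ∑ i, a g i with hA
  have haA : ∀ g i, a g i ≤ A := by
    intro g i
    calc a g i ≤ ∑ i, a g i :=
          Finset.single_le_sum (f := fun i => a g i) (fun _ _ => Nat.zero_le _) (mem_univ i)
      _ ≤ A := Finset.single_le_sum (f := fun g => ∑ i, a g i) (fun _ _ => Nat.zero_le _) (mem_univ g)
  obtain ⟨s₀, c, hc, hev⟩ := h A
  refine ⟨c, hc, ?_⟩
  filter_upwards [hev, eventually_ge_atTop 1] with N hN hN1
  have hNr : (1 : ℝ) ≤ N := by exact_mod_cast hN1
  obtain ⟨s, S, σ, -, -, -, hcard, hcount⟩ := hN (fun g i => ((a g i : ℤ), (1 : ℤ)))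
    (by
      intro x y hxy
      apply hinj
      have h1 : ((a x.1 x.2 : ℕ) : ℤ) = ((a y.1 y.2 : ℕ) : ℤ) := (Prod.ext_iff.1 hxy).1
      show a x.1 x.2 = a y.1 y.2
      exact Nat.cast_injective h1)
    (by
      intro g i
      refine ⟨?_, ?_, ?_, isCoprime_one_right, ?_⟩
      · have := ha1 g i
        simp only
        exact_mod_cast (by omega : a g i ≠ 0)
      · simp only
        rw [abs_of_nonneg (by positivity)]
        exact_mod_cast haA g i
      · simp only
        rw [abs_one]
        exact_mod_cast hN1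
      · intro t ht1 _
        simp only
        push_cast
        have h1 : (1 : ℝ) ≤ a g i := by exact_mod_cast ha1 g i
        have h2 : 0 ≤ t := by linarith
        nlinarith)
    (by
      intro p hp hpk
      exact ⟨0, fun g i => adm_small hp hpk (fun x : Fin T × Fin K => a x.1 x.2)
        (fun x => hadvd x.1 x.2) 0 (g, i)⟩)
  refine ⟨S, σ, hcard, hcount.trans ?_⟩
  apply Nat.cast_le.2
  apply Finset.card_le_card
  intro n hn
  unfold Pool.Agent.Y827.RO.Rs at hn
  rw [mem_filter] at hn ⊢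
  refine ⟨hn.1, hn.2.1, fun g hg => ?_⟩
  have h1 := hn.2.2.2.2 g hg
  have h2 : ((a g (σ g) : ℤ) * (n : ℤ) + 1).toNat = a g (σ g) * n + 1 := by
    have : ((a g (σ g) : ℤ) * (n : ℤ) + 1) = ((a g (σ g) * n + 1 : ℕ) : ℤ) := by push_cast; ring
    rw [this, Int.toNat_natCast]
  rw [← h2]
  exact h1

end Pool.Agent.V5helper61.UF
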